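import Mathlib
import Pool.Agent.Helper79.JC.BC
import Pool.Agent.Helper15.GT.RP

/-!
# JE: correspondences between curves over `K`
-/

set_option linter.unusedSectionVars false

namespace Pool.Agent.Helper15.JE

open VC VF Pool.Agent.Helper21.TO Pool.Agent.Helper15.GT
open Pool.Agent.Helper79.JC (BC)

universe u

/-- A correspondence from the curve `X₁` to the curve `X₂` over `K` with function fields `F₁`, `F₂`, given by a curve `Γ` over
`K` with finite morphisms to `X₁` and `X₂`: `P` is the function field of `Γ`. The curves need not be geometrically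
irreducible over `K`. -/
structure Cr {k K F₁ F₂ : Type u} [Field k] [Field K] [Algebra k K] [Field F₁] [Algebra k F₁] [Field F₂] [Algebra k F₂]
    (κ₁ : K →ₐ[k] F₁) (κ₂ : K →ₐ[k] F₂) where
  P : Type u
  [fP : Field P]
  [aP : Algebra k P]
  a : F₁ →ₐ[k] P
  b : F₂ →ₐ[k] P
  hab : a.comp κ₁ = b.comp κ₂
  fa : (a : F₁ →+* P).Finite
  fb : (b : F₂ →+* P).Finite

attribute [instance] Cr.fP Cr.aP

section

variable {k K F E : Type u} [Field k] [IsAlgClosed k] [CharZero k] [Field K] [Algebra k K] [Field F] [Algebra k F]
  [Field E] [Algebra k E] {κ : K →ₐ[k] F} {κE : K →ₐ[k] E} {Ω M : Type u} [Field Ω] [Algebra k Ω] [Algebra K Ω]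
  [IsScalarTower k K Ω] [IsAlgClosed Ω] [CharZero Ω] [Field M] [Algebra k M] [Algebra Ω M] [IsScalarTower k Ω M]

/-- Let `X` be geometrically irreducible, let `M` be the function field of `X_Ω` and `A` a field containing `M` (embedding
`i`). The branches in `A` of the composite `V U`, for the correspondences `U` from `X` to `Y` and `V` from `Y` to `X` over
`K`. As a multivalued function `U` maps the embedding of `F` in `A` to the embeddings `τ b` of the function field of
`Y`, where `τ` is an extension of the embedding of `F` to the function field of the curve of `U`, and `V` maps `τ b` to the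
embeddings `ρ b` of `F`, where `ρ` is an extension of `τ b` to the function field of the curve of `V` (`a`, `b` are the two
morphisms). Let `σ` be the extension of `ρ b` to an embedding of `M` over `Ω`. -/
structure Br (D : BC κ Ω M) (U : Cr κ κE) (V : Cr κE κ) {A : Type u} [Field A] [Algebra k A] [Algebra Ω A]
    [IsScalarTower k Ω A] (i : M →ₐ[Ω] A) where
  σ : M →ₐ[Ω] A
  τ : U.P →ₐ[k] A
  ρ : V.P →ₐ[k] A
  hτ : τ.comp U.a = (i.restrictScalars k).comp D.j
  hρ : ρ.comp V.a = τ.comp U.b
  hσ : (σ.restrictScalars k).comp D.j = ρ.comp V.b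

/-- The point of `X_Ω` given by the place `x` of `A` over `Ω`: the restriction of `x` to `M`. -/
noncomputable def pt (D : BC κ Ω M) (x : RPl Ω (AlgebraicClosure M)) : Place Ω M :=
  x.pl D.ff (IsScalarTower.toAlgHom Ω M (AlgebraicClosure M))

/-- The divisor `V (U (P))` on `X_Ω`, where `P` is the point given by the place `x` of `A` over `Ω`: the sum over the
branches of `V U` of the restrictions of `x` to `M` along the embeddings `σ`. If all curves are geometrically irreducible
it is given by pull-back and push-forward (`image_maps` in Superset.lean). -/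
noncomputable def image (D : BC κ Ω M) (U : Cr κ κE) (V : Cr κE κ) (x : RPl Ω (AlgebraicClosure M)) :
    Place Ω M →₀ ℤ :=
  ∑ᶠ s : Br D U V (IsScalarTower.toAlgHom Ω M (AlgebraicClosure M)), Finsupp.single (x.pl D.ff s.σ) 1

/-- The divisor `N (P - Q) - ∑ (V_i U_i P - V_i U_i Q)` is principal for all points `P`, `Q` of `X_Ω`. -/
def Rel (D : BC κ Ω M) {m : ℕ} {E : Fin m → Type u} [∀ i, Field (E i)] [∀ i, Algebra k (E i)]
    {κE : ∀ i, K →ₐ[k] E i} (U : ∀ i, Cr κ (κE i)) (V : ∀ i, Cr (κE i) κ) (N : ℕ) : Prop :=
  ∀ x y : RPl Ω (AlgebraicClosure M), (N : ℤ) • (Finsupp.single (pt D x) 1 - Finsupp.single (pt D y) 1) -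
    ∑ i, (image D (U i) (V i) x - image D (U i) (V i) y) ∈ (curve D.ff).Rat

end

end Pool.Agent.Helper15.JE
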