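import Mathlib
import Pool.Agent.Helper9.NS
import Pool.Agent.Helper15.GT.Ring

/-!
# JE: identities in the group ring
-/

set_option linter.unusedSectionVars false

namespace Pool.Agent.Helper15.JE

open Pool.Agent.Helper15.GT (eG)

universe u v

section

variable {G : Type u} [Group G] [Fintype G]

private theorem eG_sum (Γ : Subgroup G) [Fintype Γ] : eG Γ = ∑ j : Γ, MonoidAlgebra.single (j : G) (1 : ℚ) := by
  unfold eG
  rw [finsum_eq_sum_of_fintype]
  rfl

private theorem self_sum (a : MonoidAlgebra ℚ G) : a = ∑ h, MonoidAlgebra.single h (a.coeff h) := by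
  classical
  refine MonoidAlgebra.ext ?_
  rw [MonoidAlgebra.coeff_sum]
  refine Finsupp.ext fun x => ?_
  rw [Finsupp.finsetSum_apply, Finset.sum_eq_single x]
  · rw [MonoidAlgebra.coeff_single, Finsupp.single_eq_same]
  · intro y _ hy
    rw [MonoidAlgebra.coeff_single, Finsupp.single_eq_of_ne hy.symm]
  · intro hx
    exact absurd (Finset.mem_univ _) hx

/-- The linear functional with the values `U g`. -/
private noncomputable def lam {k : Type v} [Field k] (U : G → k) (a : MonoidAlgebra ℚ G) : k :=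
  ∑ g, (a.coeff g : k) * U g

private theorem lam_add {k : Type v} [Field k] [CharZero k] (U : G → k) (a b : MonoidAlgebra ℚ G) :
    lam U (a + b) = lam U a + lam U b := by
  unfold lam
  rw [← Finset.sum_add_distrib]
  refine Finset.sum_congr rfl fun g _ => ?_
  rw [MonoidAlgebra.coeff_add, Finsupp.add_apply, Rat.cast_add, add_mul]

private theorem lam_zero {k : Type v} [Field k] [CharZero k] (U : G → k) : lam U 0 = 0 := by
  unfold lam
  refine Finset.sum_eq_zero fun g _ => ?_
  rw [MonoidAlgebra.coeff_zero, Finsupp.zero_apply, Rat.cast_zero, zero_mul]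

private theorem lam_sum {k : Type v} [Field k] [CharZero k] (U : G → k) {ι : Type*} (s : Finset ι)
    (f : ι → MonoidAlgebra ℚ G) : lam U (∑ i ∈ s, f i) = ∑ i ∈ s, lam U (f i) := by
  classical
  induction s using Finset.induction_on with
  | empty => rw [Finset.sum_empty, Finset.sum_empty, lam_zero]
  | insert a s ha ih => rw [Finset.sum_insert ha, Finset.sum_insert ha, lam_add, ih]

private theorem lam_single {k : Type v} [Field k] [CharZero k] (U : G → k) (g : G) (c : ℚ) :
    lam U (MonoidAlgebra.single g c) = (c : k) * U g := by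
  classical
  unfold lam
  rw [Finset.sum_eq_single g]
  · rw [MonoidAlgebra.coeff_single, Finsupp.single_eq_same]
  · intro y _ hy
    rw [MonoidAlgebra.coeff_single, Finsupp.single_eq_of_ne hy, Rat.cast_zero, zero_mul]
  · intro hx
    exact absurd (Finset.mem_univ _) hx

private theorem lam_eG {k : Type v} [Field k] [CharZero k] (U : G → k) (Γ : Subgroup G) [Fintype Γ] :
    lam U (eG Γ) = ∑ γ : Γ, U γ := by
  rw [eG_sum, lam_sum]
  refine Finset.sum_congr rfl fun γ _ => ?_
  rw [lam_single, Rat.cast_one, one_mul]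

private theorem lam_mul {k : Type v} [Field k] [CharZero k] (U : G → k) (Γ : Subgroup G) [Fintype Γ]
    (x y : MonoidAlgebra ℚ G) :
    lam U (y * eG Γ * x) = ∑ g, (y.coeff g : k) * ∑ γ : Γ, ∑ h, (x.coeff h : k) * U (g * γ * h) := by
  have h1 : y * eG Γ * x = ∑ g, ∑ γ : Γ, ∑ h, MonoidAlgebra.single (g * (γ : G) * h) (y.coeff g * x.coeff h) := by
    conv_lhs => rw [self_sum y, self_sum x, eG_sum]
    rw [Finset.sum_mul_sum, Finset.sum_mul]
    refine Finset.sum_congr rfl fun g _ => ?_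
    rw [Finset.sum_mul]
    refine Finset.sum_congr rfl fun γ _ => ?_
    rw [Finset.mul_sum]
    refine Finset.sum_congr rfl fun h _ => ?_
    rw [MonoidAlgebra.single_mul_single, MonoidAlgebra.single_mul_single, mul_one]
  rw [h1, lam_sum]
  refine Finset.sum_congr rfl fun g _ => ?_
  rw [lam_sum, Finset.mul_sum]
  refine Finset.sum_congr rfl fun γ _ => ?_
  rw [lam_sum, Finset.mul_sum]
  refine Finset.sum_congr rfl fun h _ => ?_
  rw [lam_single, Rat.cast_mul, mul_assoc]

end

private theorem exists_intJ (D : ℕ) (q : ℚ) (h : q.den ∣ D) : ∃ z : ℤ, (z : ℚ) = D * q := by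
  obtain ⟨k, rfl⟩ := h
  refine ⟨q.num * k, ?_⟩
  push_cast
  rw [← Rat.mul_den_eq_num q]
  ring

/-- A common denominator. -/
private theorem exists_denom {ι : Type*} [Fintype ι] (q : ι → ℚ) : ∃ (D : ℕ) (z : ι → ℤ), 0 < D ∧
    ∀ i, (z i : ℚ) = D * q i := by
  classical
  have h : ∀ i, (q i).den ∣ ∏ i, (q i).den := fun i => Finset.dvd_prod_of_mem (fun i => (q i).den) (Finset.mem_univ i)
  choose z hz using fun i => exists_intJ _ _ (h i)
  exact ⟨∏ i, (q i).den, z, Finset.prod_pos fun i _ => Rat.den_pos _, hz⟩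

/-- The identity in the group ring with integral coefficients, the ones on the right positive. -/
theorem exists_data {G : Type u} [Group G] [Fintype G] {m : ℕ} (Γ : Fin m → Subgroup G) [∀ i, Fintype (Γ i)]
    (H : Subgroup G) [Fintype H] (x y : Fin m → MonoidAlgebra ℚ G) (h : eG H = ∑ i, y i * eG (Γ i) * x i) :
    ∃ (D : ℕ) (d : Fin m → G → ℤ) (n : Fin m → G → ℕ), 0 < D ∧ (∀ i g, 0 < n i g) ∧
      ∀ (k : Type v) [Field k] [CharZero k] (U : G → k),
        ∑ i, ∑ g, (d i g : k) * ∑ γ : Γ i, ∑ h, (n i h : k) * U (g * γ * h) = (D : k) * ∑ η : H, U η := by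
  classical
  obtain ⟨D₁, Y, hD₁, hY⟩ := exists_denom (fun s : Fin m × G => (y s.1).coeff s.2)
  obtain ⟨D₂, X, hD₂, hX⟩ := exists_denom (fun s : Fin m × G => (x s.1).coeff s.2)
  let c : ℕ := 1 + ∑ s : Fin m × G, (X s).natAbs
  have hc : ∀ s, 0 < X s + c := by
    intro s
    have h1 : (X s).natAbs ≤ ∑ s : Fin m × G, (X s).natAbs :=
      Finset.single_le_sum (f := fun s => (X s).natAbs) (fun _ _ => Nat.zero_le _) (Finset.mem_univ s)
    have h2 : (c : ℤ) = 1 + ((∑ s : Fin m × G, (X s).natAbs : ℕ) : ℤ) := by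
      change ((1 + _ : ℕ) : ℤ) = _
      rw [Nat.cast_add, Nat.cast_one]
    omega
  let n : Fin m → G → ℕ := fun i g => (X (i, g) + c).toNat
  have hn : ∀ i g, ((n i g : ℕ) : ℤ) = X (i, g) + c := fun i g => Int.toNat_of_nonneg (hc (i, g)).le
  have hn0 : ∀ i g, 0 < n i g := fun i g => by
    have := hn i g
    have := hc (i, g)
    omega
  let ε : Fin m → ℕ := fun i => ∑ g, n i g
  have hε : ∀ i, 0 < ε i := fun i => Finset.sum_pos (fun g _ => hn0 i g) ⟨1, Finset.mem_univ _⟩
  let P : ℕ := ∏ i, ε i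
  have hP : 0 < P := Finset.prod_pos fun i _ => hε i
  have hdvd : ∀ i, ε i ∣ P := fun i => Finset.dvd_prod_of_mem ε (Finset.mem_univ i)
  choose Q hQ using hdvd
  let d : Fin m → G → ℤ := fun i g => P * Y (i, g) - Q i * c * ∑ g', Y (i, g')
  refine ⟨P * (D₁ * D₂), d, n, Nat.mul_pos hP (Nat.mul_pos hD₁ hD₂), hn0, fun k _ _ U => ?_⟩
  have hYk : ∀ i g, ((Y (i, g) : ℤ) : k) = D₁ * ((y i).coeff g : k) := fun i g => by
    have h1 := congrArg (fun q : ℚ => (q : k)) (hY (i, g))
    simpa using h1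
  have hXk : ∀ i g, ((X (i, g) : ℤ) : k) = D₂ * ((x i).coeff g : k) := fun i g => by
    have h1 := congrArg (fun q : ℚ => (q : k)) (hX (i, g))
    simpa using h1
  have hnk : ∀ i g, ((n i g : ℕ) : k) = X (i, g) + c := fun i g => by
    have h1 := congrArg (fun q : ℤ => (q : k)) (hn i g)
    simpa using h1
  let S : k := ∑ g, U g
  have hS : ∀ g : G, ∑ h, U (g * h) = S := fun g => Fintype.sum_equiv (Equiv.mulLeft g) _ _ fun h => rfl
  -- the sum over `g`, `γ` and `h` with the coefficients `n`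
  have h1 : ∀ i, ∑ g, (d i g : k) * ∑ γ : Γ i, ∑ h, (n i h : k) * U (g * γ * h) =
      P * ∑ g, (Y (i, g) : k) * ∑ γ : Γ i, ∑ h, (X (i, h) : k) * U (g * γ * h) := by
    intro i
    have h2 : ∀ g, ∑ γ : Γ i, ∑ h, (n i h : k) * U (g * γ * h) =
        ∑ γ : Γ i, ∑ h, (X (i, h) : k) * U (g * γ * h) + (c : k) * (Fintype.card (Γ i) * S) := by
      intro g
      have h3 : ∀ γ : Γ i, ∑ h, (n i h : k) * U (g * γ * h) =
          ∑ h, (X (i, h) : k) * U (g * γ * h) + (c : k) * S := by
        intro γ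
        rw [← hS (g * γ), Finset.mul_sum, ← Finset.sum_add_distrib]
        refine Finset.sum_congr rfl fun h _ => ?_
        rw [hnk, add_mul]
      rw [Finset.sum_congr rfl fun γ _ => h3 γ, Finset.sum_add_distrib, Finset.sum_const, Finset.card_univ,
        nsmul_eq_mul]
      ring
    have h4 : ∑ g, ∑ γ : Γ i, ∑ h, (n i h : k) * U (g * γ * h) = (ε i : k) * (Fintype.card (Γ i) * S) := by
      rw [Finset.sum_comm]
      have h5 : ∀ γ : Γ i, ∑ g, ∑ h, (n i h : k) * U (g * γ * h) = (ε i : k) * S := by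
        intro γ
        rw [Finset.sum_comm]
        have h6 : ∀ h, ∑ g, (n i h : k) * U (g * γ * h) = (n i h : k) * S := by
          intro h
          rw [← Finset.mul_sum]
          congr 1
          exact Fintype.sum_equiv (Equiv.mulRight ((γ : G) * h)) _ _ fun g => by
            change U (g * γ * h) = U (g * ((γ : G) * h))
            rw [mul_assoc]
        rw [Finset.sum_congr rfl fun h _ => h6 h, ← Finset.sum_mul]
        change _ = ((∑ g, n i g : ℕ) : k) * S
        rw [Nat.cast_sum]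
      rw [Finset.sum_congr rfl fun γ _ => h5 γ, Finset.sum_const, Finset.card_univ, nsmul_eq_mul]
      ring
    have h7 : ∀ g, (d i g : k) = P * (Y (i, g) : k) - Q i * c * ∑ g', (Y (i, g') : k) := by
      intro g
      change (((P : ℤ) * Y (i, g) - Q i * c * ∑ g', Y (i, g') : ℤ) : k) = _
      push_cast
      ring
    have h8 : ∑ g, (d i g : k) * ∑ γ : Γ i, ∑ h, (n i h : k) * U (g * γ * h) =
        P * ∑ g, (Y (i, g) : k) * (∑ γ : Γ i, ∑ h, (n i h : k) * U (g * γ * h)) -
          Q i * c * (∑ g', (Y (i, g') : k)) * ∑ g, ∑ γ : Γ i, ∑ h, (n i h : k) * U (g * γ * h) := by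
      rw [Finset.mul_sum (f := fun g => (Y (i, g) : k) * (∑ γ : Γ i, ∑ h, (n i h : k) * U (g * γ * h))),
        Finset.mul_sum (f := fun g => ∑ γ : Γ i, ∑ h, (n i h : k) * U (g * γ * h)), ← Finset.sum_sub_distrib]
      refine Finset.sum_congr rfl fun g _ => ?_
      rw [h7]
      ring
    have h9 : ∑ g, (Y (i, g) : k) * (∑ γ : Γ i, ∑ h, (n i h : k) * U (g * γ * h)) =
        ∑ g, (Y (i, g) : k) * (∑ γ : Γ i, ∑ h, (X (i, h) : k) * U (g * γ * h)) +
          (∑ g', (Y (i, g') : k)) * ((c : k) * (Fintype.card (Γ i) * S)) := by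
      rw [Finset.sum_mul, ← Finset.sum_add_distrib]
      refine Finset.sum_congr rfl fun g _ => ?_
      rw [h2, mul_add]
    have hQ' : (P : k) = (ε i : k) * Q i := by
      rw [← Nat.cast_mul, ← hQ i]
    rw [h8, h4, h9]
    linear_combination ((∑ g', (Y (i, g') : k)) * (c : k) * (Fintype.card (Γ i) : k) * S) * hQ'
  rw [Finset.sum_congr rfl fun i _ => h1 i, ← Finset.mul_sum]
  have h10 : ∀ i, ∑ g, (Y (i, g) : k) * ∑ γ : Γ i, ∑ h, (X (i, h) : k) * U (g * γ * h) =
      (D₁ * D₂ : k) * lam U (y i * eG (Γ i) * x i) := by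
    intro i
    rw [lam_mul, Finset.mul_sum]
    refine Finset.sum_congr rfl fun g _ => ?_
    have h11 : ∑ γ : Γ i, ∑ h, (X (i, h) : k) * U (g * γ * h) =
        (D₂ : k) * ∑ γ : Γ i, ∑ h, ((x i).coeff h : k) * U (g * γ * h) := by
      rw [Finset.mul_sum]
      refine Finset.sum_congr rfl fun γ _ => ?_
      rw [Finset.mul_sum]
      refine Finset.sum_congr rfl fun h _ => ?_
      rw [hXk, mul_assoc]
    rw [h11, hYk]
    ring
  rw [Finset.sum_congr rfl fun i _ => h10 i, ← Finset.mul_sum, ← lam_sum, ← h, lam_eG]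
  push_cast
  ring

end Pool.Agent.Helper15.JE
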