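import Mathlib
import Pool.Agent.Helper9.NS
import Pool.Agent.Helper15.JD.Av
import Pool.Agent.Helper15.JE.Ring
import Pool.Agent.Helper70.JD.Dec

/-!
# JE: decompositions by finite groups
-/

set_option linter.unusedSectionVars false

namespace Pool.Agent.Helper15.JE

open VC _root_.VF Function Polynomial Pool.Agent.Helper21.TO Pool.Agent.Helper15.GT Pool.Agent.Helper15.KP
open Pool.Agent.Helper15.JD
open Pool.Agent.Helper70.JD (exists_ext exists_grp)
open Pool.Agent.Helper15.JC (iF)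

universe u

/-- The rule for decompositions by finite groups, from the block [FAMA]. -/
theorem vpa_dec (hF : StmtFamA.{u}) {k : Type u} [Field k] [IsAlgClosed k] [CharZero k] {F N : Type u} [Field F]
    [Algebra k F] [Field N] [Algebra k N] {G : Type u} [Group G] [Finite G] (ρ : G →* (N ≃ₐ[k] N)) (H : Subgroup G)
    (φ : F →ₐ[k] N) (hφ : ∀ z : N, z ∈ Set.range φ ↔ ∀ g ∈ H, ρ g z = z) {m : ℕ} (Γ : Fin m → Subgroup G)
    (X Y : Fin m → MonoidAlgebra ℚ G) (hΓ : eG H = ∑ i, Y i * eG (Γ i) * X i) (E : Fin m → Type u)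
    [∀ i, Field (E i)] [∀ i, Algebra k (E i)] (φE : ∀ i, E i →ₐ[k] N)
    (hφE : ∀ i z, z ∈ Set.range (φE i) ↔ ∀ g ∈ Γ i, ρ g z = z) (p : Fin m → ℕ)
    (h : ∀ i, VPA k (E i) (p i)) : VPA k F (∑ i, p i) := by
  classical
  let _ : Fintype G := Fintype.ofFinite G
  let _ : ∀ i, Fintype (Γ i) := fun i => Fintype.ofFinite _
  let _ : Fintype H := Fintype.ofFinite _
  have : Infinite k := IsAlgClosed.instInfinite
  obtain ⟨D, d, n, hD, hn, hd⟩ := exists_data.{u, u} Γ H X Y hΓ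
  obtain ⟨ι, hι⟩ := exists_ext ρ H φ (fun z => (hφ z).mpr) (iF k F)
  choose ι' hι' using fun i => exists_ext ρ (Γ i) (φE i) (fun z => (hφE i z).mpr) (iF k (E i))
  choose x hx using fun i (σ : E i →ₐ[k] AlgebraicClosure F) => exists_xt σ
  let τ : ∀ i, H → G → E i →ₐ[k] AlgebraicClosure F := fun i η g =>
    ι.comp (((ρ ((η : G) * g) : N ≃ₐ[k] N) : N →ₐ[k] N).comp (φE i))
  let c : ∀ i, (E i →ₐ[k] AlgebraicClosure F) →₀ ℤ := fun i => ∑ η : H, ∑ g, d i g • Finsupp.single (τ i η g) 1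
  let J : Fin m → Type u := fun i => Γ i × (Σ g : G, Fin (n i g))
  let ψ : ∀ i, J i → F →ₐ[k] AlgebraicClosure (E i) := fun i s =>
    (ι' i).comp (((ρ ((s.1 : G) * s.2.1) : N ≃ₐ[k] N) : N →ₐ[k] N).comp φ)
  have hρ : ∀ (g g' : G) (z : N), ρ g (ρ g' z) = ρ (g * g') z := by
    intro g g' z
    rw [map_mul]
    rfl
  let _ : ∀ i, Nonempty (J i) := fun i => ⟨(1, ⟨1, ⟨0, hn i 1⟩⟩)⟩
  refine hF k F m E p h c (fun i e he => ?_) x hx J ψ (fun i e he => ?_) (D * Fintype.card H ^ 2)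
    (Nat.mul_pos hD (pow_pos Fintype.card_pos _)) (fun u _ => ⟨fun _ => 0, fun a _ => ?_, fun w => ?_⟩)
  · obtain ⟨η₀, hη₀, h1⟩ := exists_grp ρ H φ (fun z => (hφ z).mpr) ι
      ((e : AlgebraicClosure F →ₐ[k] AlgebraicClosure F).comp ι) (fun z => by
        change ι (φ z) = e (ι (φ z))
        rw [hι, he])
    change Finsupp.mapDomain _ (∑ η : H, ∑ g, d i g • Finsupp.single (τ i η g) 1) =
      ∑ η : H, ∑ g, d i g • Finsupp.single (τ i η g) 1
    rw [Finsupp.mapDomain_finsetSum]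
    refine Fintype.sum_equiv (Equiv.mulLeft (⟨η₀, hη₀⟩ : H)) _ _ fun η => ?_
    rw [Finsupp.mapDomain_finsetSum]
    refine Finset.sum_congr rfl fun g _ => ?_
    rw [Finsupp.mapDomain_smul, Finsupp.mapDomain_single]
    congr 2
    ext z
    have h2 := h1 (ρ ((η : G) * g) (φE i z))
    change e (ι (ρ ((η : G) * g) (φE i z))) = ι (ρ (η₀ * (η : G) * g) (φE i z))
    change e (ι (ρ ((η : G) * g) (φE i z))) = ι (ρ η₀ (ρ ((η : G) * g) (φE i z))) at h2
    rw [h2, hρ, mul_assoc]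
  · obtain ⟨γ₀, hγ₀, h1⟩ := exists_grp ρ (Γ i) (φE i) (fun z => (hφE i z).mpr) (ι' i)
      ((e : AlgebraicClosure (E i) →ₐ[k] AlgebraicClosure (E i)).comp (ι' i)) (fun z => by
        change ι' i (φE i z) = e (ι' i (φE i z))
        rw [hι', he])
    refine ⟨(Equiv.mulLeft (⟨γ₀, hγ₀⟩ : Γ i)).prodCongr (Equiv.refl _), fun s z => ?_⟩
    have h2 := h1 (ρ ((s.1 : G) * s.2.1) (φ z))
    change e (ι' i (ρ ((s.1 : G) * s.2.1) (φ z))) = ι' i (ρ ((γ₀ * (s.1 : G)) * s.2.1) (φ z))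
    change e (ι' i (ρ ((s.1 : G) * s.2.1) (φ z))) = ι' i (ρ γ₀ (ρ ((s.1 : G) * s.2.1) (φ z))) at h2
    rw [h2, hρ, mul_assoc]
  · rw [Finsupp.linearCombination_apply]
    simp
  · -- the value at `g`
    let U : G → k := fun g => u (w.comap (ι.comp (((ρ g : N ≃ₐ[k] N) : N →ₐ[k] N).comp φ)))
    have hU : ∀ g, ∀ η ∈ H, U (g * η) = U g := by
      intro g η hη
      change u _ = u _
      congr 2
      ext z
      change ι (ρ (g * η) (φ z)) = ι (ρ g (φ z))
      rw [← hρ, (hφ (φ z)).mp ⟨z, rfl⟩ η hη]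
    have hU1 : U 1 = u (w.comap (iF k F)) := by
      change u _ = u _
      congr 2
      ext z
      change ι (ρ 1 (φ z)) = _
      rw [map_one]
      exact hι z
    -- the inner sum
    have h1 : ∀ i (η : H) (g : G), ∑ s : J i, u (w.comap ((x i (τ i η g)).comp (ψ i s))) =
        ∑ γ : Γ i, ∑ g', (n i g' : k) * U ((η : G) * (g * γ * g')) := by
      intro i η g
      obtain ⟨γ₁, hγ₁, h2⟩ := exists_grp ρ (Γ i) (φE i) (fun z => (hφE i z).mpr)
        (ι.comp ((ρ ((η : G) * g) : N ≃ₐ[k] N) : N →ₐ[k] N)) ((x i (τ i η g)).comp (ι' i)) (fun z => by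
          change ι (ρ ((η : G) * g) (φE i z)) = x i (τ i η g) (ι' i (φE i z))
          rw [hι', hx]
          rfl)
      have h3 : ∀ s : J i, u (w.comap ((x i (τ i η g)).comp (ψ i s))) =
          U ((η : G) * (g * (γ₁ * (s.1 : G)) * s.2.1)) := by
        intro s
        change u _ = u _
        congr 2
        ext z
        have h3 := h2 (ρ ((s.1 : G) * s.2.1) (φ z))
        change x i (τ i η g) (ι' i (ρ ((s.1 : G) * s.2.1) (φ z))) =
          ι (ρ ((η : G) * (g * (γ₁ * (s.1 : G)) * s.2.1)) (φ z))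
        change x i (τ i η g) (ι' i (ρ ((s.1 : G) * s.2.1) (φ z))) =
          ι (ρ ((η : G) * g) (ρ γ₁ (ρ ((s.1 : G) * s.2.1) (φ z)))) at h3
        rw [h3, hρ, hρ]
        congr 3
        group
      rw [Finset.sum_congr rfl fun s _ => h3 s, Fintype.sum_prod_type]
      refine Fintype.sum_equiv (Equiv.mulLeft (⟨γ₁, hγ₁⟩ : Γ i)) _ _ fun γ => ?_
      rw [Fintype.sum_sigma]
      refine Finset.sum_congr rfl fun g' _ => ?_
      change ∑ _j : Fin (n i g'), U ((η : G) * (g * (γ₁ * (γ : G)) * g')) =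
        (n i g' : k) * U ((η : G) * (g * (γ₁ * (γ : G)) * g'))
      rw [Finset.sum_const, Finset.card_univ, Fintype.card_fin, nsmul_eq_mul]
    have h2 : ∀ i, (c i).sum (fun σ n => (n : k) * ∑ s, u (w.comap ((x i σ).comp (ψ i s)))) =
        ∑ η : H, ∑ g, (d i g : k) * ∑ γ : Γ i, ∑ g', (n i g' : k) * U ((η : G) * (g * γ * g')) := by
      intro i
      have h3 : (c i).sum (fun σ n => (n : k) * ∑ s, u (w.comap ((x i σ).comp (ψ i s)))) =
          Finsupp.linearCombination ℤ (fun σ => ∑ s, u (w.comap ((x i σ).comp (ψ i s)))) (c i) := by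
        rw [Finsupp.linearCombination_apply]
        refine Finsupp.sum_congr fun σ _ => ?_
        rw [zsmul_eq_mul]
      rw [h3]
      change Finsupp.linearCombination ℤ _ (∑ η : H, ∑ g, d i g • Finsupp.single (τ i η g) 1) = _
      rw [map_sum]
      refine Finset.sum_congr rfl fun η _ => ?_
      rw [map_sum]
      refine Finset.sum_congr rfl fun g _ => ?_
      rw [map_smul, Finsupp.linearCombination_single, one_smul, zsmul_eq_mul, h1]
    have h4 : ∀ η : H, ∑ i, ∑ g, (d i g : k) * ∑ γ : Γ i, ∑ g', (n i g' : k) * U ((η : G) * (g * γ * g')) =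
        (D : k) * ((Fintype.card H : k) * U 1) := by
      intro η
      rw [hd k (fun g => U ((η : G) * g))]
      congr 1
      have h7 : ∀ η' : H, U ((η : G) * (η' : G)) = U 1 := by
        intro η'
        have h8 := hU 1 ((η : G) * (η' : G)) (H.mul_mem η.2 η'.2)
        rw [one_mul] at h8
        exact h8
      rw [Finset.sum_congr rfl fun η' _ => h7 η', Finset.sum_const, Finset.card_univ, nsmul_eq_mul]
    rw [Finset.sum_congr rfl fun i _ => h2 i, Finset.sum_comm, Finset.sum_congr rfl fun η _ => h4 η,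
      Finset.sum_const, Finset.card_univ, nsmul_eq_mul, hU1]
    push_cast
    ring

end Pool.Agent.Helper15.JE
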