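import Mathlib
import Pool.Agent.Helper9.NS
import Pool.Agent.Helper98.JC.JacA
import Pool.Agent.Helper15.JE.Cr

/-!
# JE: the rule for the Jacobian, from the block [FAMA]
-/

set_option linter.unusedSectionVars false

namespace Pool.Agent.Helper15.JE

open VC VF Pool.Agent.Helper15.GT Pool.Agent.Helper15.KP Pool.Agent.Helper21.TO Pool.Agent.Helper21.TB
open Pool.Agent.Helper79.JC (BC BC.iA exists_ext ext_unique stmtExt finite_set)
open Pool.Agent.Helper15.JC (iF exists_iso alg_iA)
open Pool.Agent.Helper98.JC (nonempty_ext xt_mem xt_bij)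
open Pool.Agent.Helper15.JD (VPA StmtFamA exists_xt)
open Pool.Agent.Helper51.VN (Harm)

universe u

section

variable {k K F E : Type u} [Field k] [Field K] [Algebra k K] [Field F] [Algebra k F] [Field E] [Algebra k E]
  {κ : K →ₐ[k] F} {κE : K →ₐ[k] E}

/-- The embeddings belonging to the composite of the correspondences `U` from `X` to `Y` and `V` from `Y` to `X`. -/
def Pr {A : Type u} [Field A] [Algebra k A] (iA : F →ₐ[k] A) (U : Cr κ κE) (V : Cr κE κ) : Type u :=
  Σ τ : {τ : U.P →ₐ[k] A // ∀ z : F, τ (U.a z) = iA z}, {ρ : V.P →ₐ[k] A // ∀ z : E, ρ (V.a z) = τ.1 (U.b z)}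

lemma finite_pr {A : Type u} [Field A] [Algebra k A] (iA : F →ₐ[k] A) (U : Cr κ κE) (V : Cr κE κ) :
    Finite (Pr iA U V) := by
  have h1 : Finite {τ : U.P →ₐ[k] A // ∀ z : F, τ (U.a z) = iA z} := finite_set U.a U.fa _
  have h2 : ∀ τ : {τ : U.P →ₐ[k] A // ∀ z : F, τ (U.a z) = iA z},
      Finite {ρ : V.P →ₐ[k] A // ∀ z : E, ρ (V.a z) = τ.1 (U.b z)} := fun τ => finite_set V.a V.fa _
  exact Finite.instSigma

end

section

variable {k K F : Type u} [Field k] [IsAlgClosed k] [CharZero k] [Field K] [Algebra k K] [Field F] [Algebra k F]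
  {κ : K →ₐ[k] F} {Ω M : Type u} [Field Ω] [Algebra k Ω] [Algebra K Ω] [IsScalarTower k K Ω] [IsAlgClosed Ω]
  [CharZero Ω] [Algebra.IsAlgebraic K Ω] [Field M] [Algebra k M] [Algebra Ω M] [IsScalarTower k Ω M]

lemma hcompat1 (D : BC κ Ω M) {E : Type u} [Field E] [Algebra k E] {κE : K →ₐ[k] E} (U : Cr κ κE) (V : Cr κE κ)
    (s : Pr D.iA U V) (a : K) :
    (s.2.1.comp V.b) (κ a) = algebraMap Ω (AlgebraicClosure M) (algebraMap K Ω a) := by
  have h0 : ∀ a : K, D.iA (κ a) = algebraMap Ω (AlgebraicClosure M) (algebraMap K Ω a) := by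
    intro a
    change algebraMap M (AlgebraicClosure M) (D.j (κ a)) = _
    rw [D.hj, ← IsScalarTower.algebraMap_apply Ω M (AlgebraicClosure M)]
  rw [← h0]
  change s.2.1 (V.b (κ a)) = D.iA (κ a)
  have h1 : V.b (κ a) = V.a (κE a) := (DFunLike.congr_fun V.hab a).symm
  have h2 : U.b (κE a) = U.a (κ a) := (DFunLike.congr_fun U.hab a).symm
  rw [h1, s.2.2, h2, s.1.2]

/-- The image of a point in terms of the pairs of embeddings. -/
theorem image_eq (D : BC κ Ω M) {E : Type u} [Field E] [Algebra k E] {κE : K →ₐ[k] E} (U : Cr κ κE) (V : Cr κE κ)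
    [Fintype (Pr D.iA U V)] (σ' : Pr D.iA U V → M →ₐ[Ω] AlgebraicClosure M)
    (hσ' : ∀ s z, σ' s (D.j z) = s.2.1 (V.b z)) (x : RPl Ω (AlgebraicClosure M)) :
    image D U V x = ∑ s, Finsupp.single (x.pl D.ff (σ' s)) 1 := by
  rw [image, ← finsum_eq_sum_of_fintype]
  let g : Pr D.iA U V → Br D U V (IsScalarTower.toAlgHom Ω M (AlgebraicClosure M)) := fun s =>
    { σ := σ' s, τ := s.1.1, ρ := s.2.1, hτ := AlgHom.ext fun z => s.1.2 z, hρ := AlgHom.ext fun z => s.2.2 z,
      hσ := AlgHom.ext fun z => hσ' s z }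
  have hg : Function.Bijective g := by
    constructor
    · rintro ⟨⟨τ, hτ⟩, ⟨ρ, hρ⟩⟩ ⟨⟨τ₁, hτ₁⟩, ⟨ρ₁, hρ₁⟩⟩ h
      have h1 : τ = τ₁ := congrArg (fun s => Br.τ s) h
      subst h1
      have h2 : ρ = ρ₁ := congrArg (fun s => Br.ρ s) h
      subst h2
      rfl
    · rintro ⟨σ, τ, ρ, h1, h2, h3⟩
      refine ⟨⟨⟨τ, fun z => DFunLike.congr_fun h1 z⟩, ⟨ρ, fun z => DFunLike.congr_fun h2 z⟩⟩, ?_⟩
      have h4 : σ' ⟨⟨τ, fun z => DFunLike.congr_fun h1 z⟩, ⟨ρ, fun z => DFunLike.congr_fun h2 z⟩⟩ = σ := by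
        apply ext_unique D
        intro z
        exact (hσ' _ z).trans (DFunLike.congr_fun h3 z).symm
      subst h4
      rfl
  exact (finsum_eq_of_bijective g hg fun s => rfl).symm

/-- The index sets of the families of embeddings. -/
def Jt (D : BC κ Ω M) {m : ℕ} {E : Fin m → Type u} [∀ i, Field (E i)] [∀ i, Algebra k (E i)]
    {κE : ∀ i, K →ₐ[k] E i} (U : ∀ i, Cr κ (κE i)) (V : ∀ i, Cr (κE i) κ) : Option (Fin m) → Type u
  | none => PUnit
  | some i => Pr D.iA (U i) (V i)

/-- The families of embeddings. -/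
noncomputable def St (D : BC κ Ω M) {m : ℕ} {E : Fin m → Type u} [∀ i, Field (E i)] [∀ i, Algebra k (E i)]
    {κE : ∀ i, K →ₐ[k] E i} (U : ∀ i, Cr κ (κE i)) (V : ∀ i, Cr (κE i) κ) :
    ∀ t : Option (Fin m), Jt D U V t → F →ₐ[k] AlgebraicClosure M
  | none => fun _ => D.iA
  | some i => fun s => s.2.1.comp (V i).b

/-- The functions which are combinations of values along the embeddings are harmonic on the base. -/
theorem harm_jac (hK : IsFunctionField k K) (D : BC κ Ω M) {m : ℕ} {E : Fin m → Type u}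
    [∀ i, Field (E i)] [∀ i, Algebra k (E i)] {κE : ∀ i, K →ₐ[k] E i}
    (U : ∀ i, Cr κ (κE i)) (V : ∀ i, Cr (κE i) κ) (N : ℕ)
    (H : Rel D U V N)
    {u : RPl k F → k} (hu : HF k F u) :
    ∃ ν : Place k K → k, Harm hK ν ∧ ∀ w : RPl k (AlgebraicClosure M),
      (N : k) * u (w.comap D.iA) - ∑ i, ∑ᶠ s : Pr D.iA (U i) (V i), u (w.comap (s.2.1.comp (V i).b)) =
        ν ((w.comap D.iA).pl hK κ) := by
  classical
  have hfin : ∀ i, Finite (Pr D.iA (U i) (V i)) := fun i => finite_pr _ _ _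
  let _ : ∀ i, Fintype (Pr D.iA (U i) (V i)) := fun i => Fintype.ofFinite _
  let _ : ∀ t, Fintype (Jt D U V t) := fun t => match t with
    | none => (inferInstance : Fintype PUnit)
    | some i => (inferInstance : Fintype (Pr D.iA (U i) (V i)))
  -- the extensions to `M`
  have hcompat : ∀ t (s : Jt D U V t) (a : K), (St D U V t s) (κ a) =
      algebraMap Ω (AlgebraicClosure M) (algebraMap K Ω a) := by
    rintro (_ | i) s a
    · change algebraMap M (AlgebraicClosure M) (D.j (κ a)) = _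
      rw [D.hj, ← IsScalarTower.algebraMap_apply Ω M (AlgebraicClosure M)]
    · exact hcompat1 D (U i) (V i) s a
  choose σ' hσ' using fun t (s : Jt D U V t) =>
    (stmtExt k K F κ Ω M D (St D U V t s) (hcompat t s)).exists
  have hnone : ∀ s, σ' none s = IsScalarTower.toAlgHom Ω M (AlgebraicClosure M) := by
    intro s
    apply ext_unique D
    intro z
    rw [hσ']
    rfl
  have key := Pool.Agent.Helper79.JD.harmF k K F κ Ω M hK D (Option (Fin m))
    (fun t => t.elim (N : ℤ) (fun _ => -1)) (Jt D U V) (St D U V) σ' hσ'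
  have hperm : ∀ t, ∀ e : AlgebraicClosure M ≃ₐ[k] AlgebraicClosure M, (∀ z : F, e (D.iA z) = D.iA z) →
      ∃ π : Equiv.Perm (Jt D U V t), ∀ s z, e (St D U V t s z) = St D U V t (π s) z := by
    rintro (_ | i) e he
    · exact ⟨Equiv.refl _, fun s z => he z⟩
    · let g : Pr D.iA (U i) (V i) → Pr D.iA (U i) (V i) := fun s =>
        ⟨⟨(e : AlgebraicClosure M →ₐ[k] AlgebraicClosure M).comp s.1.1, fun z => by
          change e (s.1.1 ((U i).a z)) = D.iA z
          rw [s.1.2, he]⟩, ⟨(e : AlgebraicClosure M →ₐ[k] AlgebraicClosure M).comp s.2.1, fun z => by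
          change e (s.2.1 ((V i).a z)) = e (s.1.1 ((U i).b z))
          rw [s.2.2]⟩⟩
      have hg : Function.Injective g := by
        rintro ⟨⟨τ, hτ⟩, ⟨ρ, hρ⟩⟩ ⟨⟨τ₁, hτ₁⟩, ⟨ρ₁, hρ₁⟩⟩ h
        have h1 : τ = τ₁ := by
          ext z
          apply e.injective
          exact DFunLike.congr_fun (congrArg (fun s : Pr D.iA (U i) (V i) => s.1.1) h) z
        subst h1
        have h2 : ρ = ρ₁ := by
          ext z
          apply e.injective
          exact DFunLike.congr_fun (congrArg (fun s : Pr D.iA (U i) (V i) => s.2.1) h) z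
        subst h2
        rfl
      exact ⟨Equiv.ofBijective g (Finite.injective_iff_bijective.mp hg), fun s z => rfl⟩
  have hrel : ∀ x y : RPl Ω (AlgebraicClosure M),
      ∑ t : Option (Fin m), (t.elim (N : ℤ) (fun _ => -1)) • ∑ s, (Finsupp.single (x.pl D.ff (σ' t s)) (1 : ℤ) -
        Finsupp.single (y.pl D.ff (σ' t s)) 1) ∈ (curve D.ff).Rat := by
    intro x y
    have h2 := H x y
    rw [Fintype.sum_option]
    have h3 : ∑ s : Jt D U V none, (Finsupp.single (x.pl D.ff (σ' none s)) (1 : ℤ) -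
        Finsupp.single (y.pl D.ff (σ' none s)) 1) =
        (Finsupp.single (x.pl D.ff (IsScalarTower.toAlgHom Ω M (AlgebraicClosure M))) (1 : ℤ) -
          Finsupp.single (y.pl D.ff (IsScalarTower.toAlgHom Ω M (AlgebraicClosure M))) 1) := by
      simp only [hnone]
      change ∑ s : PUnit, _ = _
      simp
    have h4 : ∀ i : Fin m, ((some i).elim (N : ℤ) (fun _ => -1)) • ∑ s : Jt D U V (some i),
        (Finsupp.single (x.pl D.ff (σ' (some i) s)) (1 : ℤ) - Finsupp.single (y.pl D.ff (σ' (some i) s)) 1) =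
        -(image D (U i) (V i) x - image D (U i) (V i) y) := by
      intro i
      rw [image_eq D (U i) (V i) (fun s => σ' (some i) s) (fun s z => hσ' (some i) s z),
        image_eq D (U i) (V i) (fun s => σ' (some i) s) (fun s z => hσ' (some i) s z), ← Finset.sum_sub_distrib]
      simp only [Option.elim_some, neg_smul, one_smul]
      rfl
    rw [h3, Finset.sum_congr rfl fun i _ => h4 i, Finset.sum_neg_distrib, ← sub_eq_add_neg]
    exact h2
  obtain ⟨ν, hν, h⟩ := key hperm hrel u hu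
  refine ⟨ν, hν, fun w => ?_⟩
  rw [← h w, Fintype.sum_option, sub_eq_add_neg, ← Finset.sum_neg_distrib]
  congr 1
  · have h1 : ∑ s : Jt D U V none, u (w.comap (St D U V none s)) = u (w.comap D.iA) := by
      change ∑ s : PUnit, u (w.comap D.iA) = _
      simp
    rw [h1]
    simp
  · refine Finset.sum_congr rfl fun i _ => ?_
    rw [finsum_eq_sum_of_fintype]
    simp only [Option.elim_some, Int.cast_neg, Int.cast_one, neg_mul, one_mul]
    rfl

end

/-- The rule for the Jacobian, from the block [FAMA]. -/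
theorem jacA (hF : StmtFamA.{u}) {k K F : Type u} [Field k] [IsAlgClosed k] [CharZero k] [Field K] [Algebra k K]
    [Field F] [Algebra k F] {κ : K →ₐ[k] F} {Ω M : Type u} [Field Ω] [Algebra k Ω] [Algebra K Ω]
    [IsScalarTower k K Ω] [IsAlgClosed Ω] [CharZero Ω] [Algebra.IsAlgebraic K Ω] [Field M] [Algebra k M]
    [Algebra Ω M] [IsScalarTower k Ω M] (hK : IsFunctionField k K) (D : BC κ Ω M) {m : ℕ} {E : Fin m → Type u}
    [∀ i, Field (E i)] [∀ i, Algebra k (E i)] {κE : ∀ i, K →ₐ[k] E i}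
    (U : ∀ i, Cr κ (κE i)) (V : ∀ i, Cr (κE i) κ) (N : ℕ) (hN : 0 < N)
    (H : Rel D U V N)
    {p : Fin m → ℕ} (hV : ∀ i, VPA k (E i) (p i)) : VPA k F (∑ i, p i) := by
  classical
  obtain ⟨e, he⟩ := exists_iso D.iA (alg_iA D)
  have heA : ∀ z, e (iF k F z) = D.iA z := fun z => DFunLike.congr_fun he z
  have heA' : ∀ z, e.symm (D.iA z) = iF k F z := fun z => by rw [← heA, AlgEquiv.symm_apply_apply]
  have hT : ∀ i, Finite {τ : (U i).P →ₐ[k] AlgebraicClosure F // ∀ z : F, τ ((U i).a z) = iF k F z} :=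
    fun i => finite_set _ (U i).fa _
  have hR : ∀ i (σ : E i →ₐ[k] AlgebraicClosure F),
      Finite {ρ : (V i).P →ₐ[k] AlgebraicClosure F // ∀ z, ρ ((V i).a z) = σ z} :=
    fun i σ => finite_set _ (V i).fa _
  have hJ : ∀ i, Finite {ρ : (V i).P →ₐ[k] AlgebraicClosure (E i) // ∀ z, ρ ((V i).a z) = iF k (E i) z} :=
    fun i => finite_set _ (V i).fa _
  let fT : ∀ i, Fintype {τ : (U i).P →ₐ[k] AlgebraicClosure F // ∀ z : F, τ ((U i).a z) = iF k F z} :=
    fun i => Fintype.ofFinite _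
  let fR : ∀ i (σ : E i →ₐ[k] AlgebraicClosure F),
      Fintype {ρ : (V i).P →ₐ[k] AlgebraicClosure F // ∀ z, ρ ((V i).a z) = σ z} := fun i σ => Fintype.ofFinite _
  let fJ : ∀ i, Fintype {ρ : (V i).P →ₐ[k] AlgebraicClosure (E i) // ∀ z, ρ ((V i).a z) = iF k (E i) z} :=
    fun i => Fintype.ofFinite _
  have nJ : ∀ i, Nonempty {ρ : (V i).P →ₐ[k] AlgebraicClosure (E i) // ∀ z, ρ ((V i).a z) = iF k (E i) z} :=
    fun i => nonempty_ext _ (V i).fa _
  choose x hx using fun i (σ : E i →ₐ[k] AlgebraicClosure F) => exists_xt σ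
  refine hF k F m E p hV (fun i => ∑ τ : {τ : (U i).P →ₐ[k] AlgebraicClosure F // ∀ z : F, τ ((U i).a z) = iF k F z},
    Finsupp.single (τ.1.comp (U i).b) 1) (fun i => ?_) x hx
    (fun i => {ρ : (V i).P →ₐ[k] AlgebraicClosure (E i) // ∀ z, ρ ((V i).a z) = iF k (E i) z})
    (fun i ρ => ρ.1.comp (V i).b) (fun i e0 he0 => ?_) N hN (fun u hu => ?_)
  · intro e0 he0
    rw [Finsupp.mapDomain_finsetSum]
    simp only [Finsupp.mapDomain_single]
    let g : {τ : (U i).P →ₐ[k] AlgebraicClosure F // ∀ z : F, τ ((U i).a z) = iF k F z} →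
        {τ : (U i).P →ₐ[k] AlgebraicClosure F // ∀ z : F, τ ((U i).a z) = iF k F z} := fun τ =>
      ⟨(e0 : AlgebraicClosure F →ₐ[k] AlgebraicClosure F).comp τ.1, fun z => by
        change e0 (τ.1 ((U i).a z)) = iF k F z
        rw [τ.2, he0]⟩
    have hg : Function.Injective g := by
      intro τ τ₁ h
      apply Subtype.ext
      ext z
      apply e0.injective
      exact DFunLike.congr_fun (congrArg Subtype.val h) z
    exact Fintype.sum_bijective g (Finite.injective_iff_bijective.mp hg) _ _ fun τ => rfl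
  · let g : {ρ : (V i).P →ₐ[k] AlgebraicClosure (E i) // ∀ z, ρ ((V i).a z) = iF k (E i) z} →
        {ρ : (V i).P →ₐ[k] AlgebraicClosure (E i) // ∀ z, ρ ((V i).a z) = iF k (E i) z} := fun ρ =>
      ⟨(e0 : AlgebraicClosure (E i) →ₐ[k] AlgebraicClosure (E i)).comp ρ.1, fun z => by
        change e0 (ρ.1 ((V i).a z)) = iF k (E i) z
        rw [ρ.2, he0]⟩
    have hg : Function.Injective g := by
      intro τ τ₁ h
      apply Subtype.ext
      ext z
      apply e0.injective
      exact DFunLike.congr_fun (congrArg Subtype.val h) z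
    exact ⟨Equiv.ofBijective g (Finite.injective_iff_bijective.mp hg), fun s z => rfl⟩
  · obtain ⟨ν, hν, h⟩ := harm_jac hK D U V N H hu
    refine ⟨fun w => ν ((w.comap (iF k F)).pl hK κ), fun a ha => ?_, fun w => ?_⟩
    · have h1 := ha.2 K hK (Finsupp.single ((iF k F).comp κ) 1) (by
        intro e0 he0
        rw [Finsupp.mapDomain_single]
        congr 1
        ext z
        exact he0 (κ z))
      rw [Finsupp.sum_single_index (by rw [zero_smul]), one_smul] at h1
      have h2 := harm_curve hν _ h1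
      rw [Finsupp.linearCombination_mapDomain] at h2
      exact h2
    · have h1 := h (w.comap (e.symm : AlgebraicClosure M →ₐ[k] AlgebraicClosure F))
      have h2 : (w.comap (e.symm : AlgebraicClosure M →ₐ[k] AlgebraicClosure F)).comap D.iA = w.comap (iF k F) := by
        rw [RPl.comap_comap]
        congr 1
        ext z
        exact heA' z
      rw [h2, sub_eq_iff_eq_add, add_comm] at h1
      rw [h1]
      congr 1
      refine Finset.sum_congr rfl fun i _ => ?_
      -- the sum over the embeddings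
      have h3 : ∀ G : (E i →ₐ[k] AlgebraicClosure F) → k,
          (∑ τ : {τ : (U i).P →ₐ[k] AlgebraicClosure F // ∀ z : F, τ ((U i).a z) = iF k F z},
            Finsupp.single (τ.1.comp (U i).b) (1 : ℤ)).sum (fun σ n => (n : k) * G σ) =
          ∑ τ : {τ : (U i).P →ₐ[k] AlgebraicClosure F // ∀ z : F, τ ((U i).a z) = iF k F z},
            G (τ.1.comp (U i).b) := by
        intro G
        rw [← Finsupp.sum_finsetSum_index (fun σ => by rw [Int.cast_zero, zero_mul])
          (fun σ a b => by rw [Int.cast_add, add_mul])]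
        refine Finset.sum_congr rfl fun τ _ => ?_
        rw [Finsupp.sum_single_index (by rw [Int.cast_zero, zero_mul]), Int.cast_one, one_mul]
      rw [h3]
      have h4 : ∀ τ : {τ : (U i).P →ₐ[k] AlgebraicClosure F // ∀ z : F, τ ((U i).a z) = iF k F z},
          ∑ s : {ρ : (V i).P →ₐ[k] AlgebraicClosure (E i) // ∀ z, ρ ((V i).a z) = iF k (E i) z},
            u (w.comap ((x i (τ.1.comp (U i).b)).comp (s.1.comp (V i).b))) =
          ∑ ρ : {ρ : (V i).P →ₐ[k] AlgebraicClosure F // ∀ z, ρ ((V i).a z) = (τ.1.comp (U i).b) z},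
            u (w.comap (ρ.1.comp (V i).b)) := by
        intro τ
        exact Fintype.sum_bijective _ (xt_bij (x i (τ.1.comp (U i).b)) (τ.1.comp (U i).b) (hx i _) (V i).a (V i).fa) _ _
          fun s => rfl
      rw [Finset.sum_congr rfl fun τ _ => h4 τ]
      rw [← Fintype.sum_sigma (fun s : (Σ τ : {τ : (U i).P →ₐ[k] AlgebraicClosure F // ∀ z : F, τ ((U i).a z) = iF k F z},
        {ρ : (V i).P →ₐ[k] AlgebraicClosure F // ∀ z, ρ ((V i).a z) = (τ.1.comp (U i).b) z}) =>
          u (w.comap (s.2.1.comp (V i).b)))]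
      let g : (Σ τ : {τ : (U i).P →ₐ[k] AlgebraicClosure F // ∀ z : F, τ ((U i).a z) = iF k F z},
          {ρ : (V i).P →ₐ[k] AlgebraicClosure F // ∀ z, ρ ((V i).a z) = (τ.1.comp (U i).b) z}) →
          Pr D.iA (U i) (V i) := fun s =>
        ⟨⟨(e : AlgebraicClosure F →ₐ[k] AlgebraicClosure M).comp s.1.1, fun z => by
          change e (s.1.1 ((U i).a z)) = D.iA z
          rw [s.1.2, heA]⟩, ⟨(e : AlgebraicClosure F →ₐ[k] AlgebraicClosure M).comp s.2.1, fun z => by
          change e (s.2.1 ((V i).a z)) = e (s.1.1 ((U i).b z))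
          rw [s.2.2]
          rfl⟩⟩
      have hg : Function.Bijective g := by
        constructor
        · rintro ⟨⟨τ, hτ⟩, ⟨ρ, hρ⟩⟩ ⟨⟨τ₁, hτ₁⟩, ⟨ρ₁, hρ₁⟩⟩ h
          have h1 : τ = τ₁ := by
            ext z
            apply e.injective
            exact DFunLike.congr_fun (congrArg (fun s : Pr D.iA (U i) (V i) => s.1.1) h) z
          subst h1
          have h2 : ρ = ρ₁ := by
            ext z
            apply e.injective
            exact DFunLike.congr_fun (congrArg (fun s : Pr D.iA (U i) (V i) => s.2.1) h) z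
          subst h2
          rfl
        · rintro ⟨⟨τ, hτ⟩, ⟨ρ, hρ⟩⟩
          refine ⟨⟨⟨(e.symm : AlgebraicClosure M →ₐ[k] AlgebraicClosure F).comp τ, fun z => ?_⟩,
            ⟨(e.symm : AlgebraicClosure M →ₐ[k] AlgebraicClosure F).comp ρ, fun z => ?_⟩⟩, ?_⟩
          · change e.symm (τ ((U i).a z)) = iF k F z
            rw [hτ, heA']
          · change e.symm (ρ ((V i).a z)) = e.symm (τ ((U i).b z))
            rw [hρ]
          · have h5 : (e : AlgebraicClosure F →ₐ[k] AlgebraicClosure M).comp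
                ((e.symm : AlgebraicClosure M →ₐ[k] AlgebraicClosure F).comp τ) = τ := by
              ext z
              exact e.apply_symm_apply _
            have h6 : (e : AlgebraicClosure F →ₐ[k] AlgebraicClosure M).comp
                ((e.symm : AlgebraicClosure M →ₐ[k] AlgebraicClosure F).comp ρ) = ρ := by
              ext z
              exact e.apply_symm_apply _
            have key : ∀ (τ' : (U i).P →ₐ[k] AlgebraicClosure M) (hτ' : ∀ z, τ' ((U i).a z) = D.iA z)
                (ρ' : (V i).P →ₐ[k] AlgebraicClosure M) (hρ' : ∀ z, ρ' ((V i).a z) = τ' ((U i).b z)),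
                τ' = τ → ρ' = ρ → (⟨⟨τ', hτ'⟩, ⟨ρ', hρ'⟩⟩ : Pr D.iA (U i) (V i)) = ⟨⟨τ, hτ⟩, ⟨ρ, hρ⟩⟩ := by
              rintro _ _ _ _ rfl rfl
              rfl
            exact key _ _ _ _ h5 h6
      rw [← finsum_eq_sum_of_fintype]
      refine (finsum_eq_of_bijective g hg fun s => ?_).symm
      have h7 : (w.comap (e.symm : AlgebraicClosure M →ₐ[k] AlgebraicClosure F)).comap ((g s).2.1.comp (V i).b) =
          w.comap (s.2.1.comp (V i).b) := by
        rw [RPl.comap_comap]
        congr 1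
        ext z
        exact e.symm_apply_apply _
      rw [h7]

end Pool.Agent.Helper15.JE
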