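import Mathlib
import Pool.Agent.Helper9.NS
import Pool.Agent.Helper15.GT.RBase
import Pool.Agent.Helper15.GT.RDec
import Pool.Agent.Helper15.GT.RFin
import Pool.Agent.Helper15.GT.Ruled2
import Pool.Agent.Helper21.TZ.Main
import Pool.Agent.Helper15.JD.Main
import Pool.Agent.Helper15.JE.Cls
import Pool.Agent.Helper15.JE.Jac
import Pool.Agent.Helper15.JE.Dec
import Pool.Agent.Helper15.JD.FamA
import Pool.Agent.Helper15.JD.Cor
import Pool.Agent.Helper79.JD.Apply

/-!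
# JE: the theorem for the class of function fields
-/

set_option linter.unusedSectionVars false

namespace Pool.Agent.Helper15.JE

open VC VF Function Pool.Agent.Helper21.TO Pool.Agent.Helper15.GT Pool.Agent.Helper15.JC
open Pool.Agent.Helper15.JD (VPA vpa_of_vpj famA IsCor)

universe u

theorem Cls.vpa {k F : Type u} [Field k] [IsAlgClosed k] [CharZero k] [Field F] [Algebra k F]
    {p : ℕ} (h : Cls k F p) : VPA k F p := by
  induction h with
  | fib F K L Ω T g hg E h4 h6 hmin κ f hκ hf p hp =>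
    have hf1 : ∀ σ ∈ T.G, ∀ z, σ (f z) = f z := fun σ hσ z => (hf (f z)).mp ⟨z, rfl⟩ σ hσ
    refine vpa_of_vpj ?_
    rcases hp with ⟨hE, hp⟩ | ⟨⟨u, hu, huE⟩, rfl⟩
    · exact vpj_fib T hg E h4 h6 hmin hE κ f hκ hf1 hp
    · exact Pool.Agent.Helper21.TZ.vpj_triv T hg hu (fun P h => by rw [huE P]; exact h4 P h)
        (fun P h => by rw [huE P]; exact h6 P h) κ f hκ hf1 (fun z hz => (hf z).mpr hz)
  | ruled F K hK κ x hx => exact vpa_of_vpj (vpj_ruled hK κ x hx)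
  | dec F N G ρ H φ hφ m Γ X Y hΓ E ψ hψ p h ih => exact vpa_dec famA ρ H φ hφ Γ X Y hΓ E ψ hψ p ih
  | jac F K Ω M hK κ D m E κE U V N hN H p h ih => exact jacA famA hK D U V N hN H ih

theorem main {k F : Type u} [Field k] [IsAlgClosed k] [CharZero k] [Field F] [Algebra k F]
    {p : ℕ} (h : Cls k F p) {M : ℕ} (ξ : Fin M → F) (hξ : ξ ≠ 0) {n : ℕ} (hn : p < n)
    (a : Fin n → (proj k (van k ξ)).Cycles) (ha0 : ∀ l, (a l).sum (fun _ c => c) = 0)
    (haJ : ∀ (N : Type u) [Field N] [Algebra k N] (i : F →ₐ[k] N) (_ : (i : F →+* N).Finite) (K : Type u) [Field K]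
      [Algebra k K] (hK : IsFunctionField k K) (j : K →ₐ[k] N), ¬ IsGenus k K 0 →
        ∃ θ : PPt k k (van k ξ) → Place k K →₀ ℤ, IsCor hK i j ξ hξ θ ∧
          ∀ l, Finsupp.linearCombination ℤ θ (a l) ∈ (curve hK).Rat) :
    ∃ m : ℕ, 0 < m ∧ m • ∑ σ : Equiv.Perm (Fin n), ((Equiv.Perm.sign σ : ℤˣ) : ℤ) •
      extProd (fun i => a (σ i)) ∈ ((proj k (van k ξ)).pow n).Rat :=
  Pool.Agent.Helper79.JD.apply k F p h.vpa M ξ hξ n hn a ha0 haJ

end Pool.Agent.Helper15.JE
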