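import Mathlib
import Pool.Agent.Helper9.NS
import Pool.Agent.Helper15.JD.Cls
import Pool.Agent.Helper15.JE.Cls
import Pool.Agent.Helper15.JE.Jac

/-!
# JE: comparison with the class of Helper15/JD/Cls.lean

In the class of Helper15/JD/Cls.lean the curves `Y_i` and the curves giving the correspondences are geometrically
irreducible, and the divisors `V_i U_i A` are defined by pull-back and push-forward. In the decompositions by
finite groups the sum of the elements of `H` is in the left ideal generated by the sums of the elements of the `Γ_i`.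
The theorem says that this class is contained in the one of Helper15/JE/Cls.lean. In particular `image` is the
composite of pull-backs and push-forwards.
-/

set_option linter.unusedSectionVars false

namespace Pool.Agent.Helper15.JE

open VC VF Pool.Agent.Helper15.GT Pool.Agent.Helper15.KP Pool.Agent.Helper21.TO
open Pool.Agent.Helper79.JC (BC BC.iA exists_ext ext_unique stmtExt)

universe u

section

variable {k K F E : Type u} [Field k] [IsAlgClosed k] [CharZero k] [Field K] [Algebra k K] [Field F] [Algebra k F]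
  [Field E] [Algebra k E] {κ : K →ₐ[k] F} {κE : K →ₐ[k] E} {Ω M ME : Type u} [Field Ω] [Algebra k Ω] [Algebra K Ω]
  [IsScalarTower k K Ω] [IsAlgClosed Ω] [CharZero Ω] [Algebra.IsAlgebraic K Ω] [Field M] [Algebra k M] [Algebra Ω M]
  [IsScalarTower k Ω M] [Field ME] [Algebra k ME] [Algebra Ω ME] [IsScalarTower k Ω ME]

/-- The correspondence without the base change. -/
def ofCr {F₁ F₂ M₁ M₂ : Type u} [Field F₁] [Algebra k F₁] [Field F₂] [Algebra k F₂] {κ₁ : K →ₐ[k] F₁}
    {κ₂ : K →ₐ[k] F₂} [Field M₁] [Algebra k M₁] [Algebra Ω M₁] [Field M₂] [Algebra k M₂] [Algebra Ω M₂]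
    {D₁ : BC κ₁ Ω M₁} {D₂ : BC κ₂ Ω M₂} (Z : Pool.Agent.Helper15.JD.Cr D₁ D₂) : Cr κ₁ κ₂ where
  P := Z.P
  a := Z.a
  b := Z.b
  hab := Z.ha.trans Z.hb.symm
  fa := Z.fa
  fb := Z.fb

/-- The divisor `V (U (x)) - V (U (y))` is given by pull-back and push-forward. -/
theorem image_maps (hK : IsFunctionField k K) {D : BC κ Ω M} {DE : BC κE Ω ME} (U : Pool.Agent.Helper15.JD.Cr D DE)
    (V : Pool.Agent.Helper15.JD.Cr DE D) (x y : RPl Ω (AlgebraicClosure M)) :
    ∃ B : Place Ω ME →₀ ℤ,
      U.Maps (Finsupp.single (x.pl D.ff (IsScalarTower.toAlgHom Ω M (AlgebraicClosure M))) (1 : ℤ) -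
        Finsupp.single (y.pl D.ff (IsScalarTower.toAlgHom Ω M (AlgebraicClosure M))) 1) B ∧
      V.Maps B (image D (ofCr U) (ofCr V) x - image D (ofCr U) (ofCr V) y) := by
  have hfin := finite_pr D.iA (ofCr U) (ofCr V)
  let _ : Fintype (Pr D.iA (ofCr U) (ofCr V)) := Fintype.ofFinite _
  choose σ' hσ' using fun s : Pr D.iA (ofCr U) (ofCr V) =>
    (stmtExt k K F κ Ω M D (s.2.1.comp V.b) (hcompat1 D (ofCr U) (ofCr V) s)).exists
  obtain ⟨B, h1, h2⟩ := (Pool.Agent.Helper98.JC.corM k K F E κ κE Ω M ME hK D DE U V).2 σ' (fun s z => hσ' s z) x y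
  refine ⟨B, h1, ?_⟩
  rw [image_eq D (ofCr U) (ofCr V) σ' (fun s z => hσ' s z), image_eq D (ofCr U) (ofCr V) σ' (fun s z => hσ' s z),
    ← Finset.sum_sub_distrib]
  have h3 := finsum_eq_sum_of_fintype (fun s : Pr D.iA (ofCr U) (ofCr V) =>
    (Finsupp.single (x.pl D.ff (σ' s)) (1 : ℤ) - Finsupp.single (y.pl D.ff (σ' s)) 1))
  rw [← h3]
  exact h2

end

theorem cls_of_cls {k F : Type u} [Field k] [IsAlgClosed k] [CharZero k] [Field F] [Algebra k F] {p : ℕ}
    (h : Pool.Agent.Helper15.JD.Cls k F p) : Cls k F p := by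
  induction h with
  | fib F K L Ω T g hg E h4 h6 hmin κ f hκ hf p hp => exact .fib F K L Ω T g hg E h4 h6 hmin κ f hκ hf p hp
  | ruled F K hK κ x hx => exact .ruled F K hK κ x hx
  | dec F N G ρ H φ hφ m Γ hΓ E ψ hψ p h ih =>
    obtain ⟨a, ha⟩ := (Submodule.mem_span_range_iff_exists_fun _).1 hΓ
    exact .dec F N G ρ H φ hφ m Γ (fun _ => 1) a (by
      rw [← ha]
      refine Finset.sum_congr rfl fun i _ => ?_
      rw [mul_one, smul_eq_mul]) E ψ hψ p ih
  | jac F K Ω M hK κ D m E ME κE DE U V N hN H p h ih =>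
    refine .jac F K Ω M hK κ D m E κE (fun i => ofCr (U i)) (fun i => ofCr (V i)) N hN (fun x y => ?_) p ih
    choose B hB hC using fun i => image_maps hK (U i) (V i) x y
    exact H _ (by
      rw [Finsupp.sum_sub_index (fun _ _ _ => rfl), Finsupp.sum_single_index rfl, Finsupp.sum_single_index rfl,
        sub_self]) B _ hB hC

end Pool.Agent.Helper15.JE
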